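import Pool.Agent.H470.Va13

set_option autoImplicit false

/-!
# The fourth power of zeta times any real power of a partial sum, on the critical line

Let `D N t` be the partial sum of length `N` of the series of zeta at `1/2 + it`. For every real `β > 0` the mean of
`|ζ(1/2+it)|⁴ |D N t| ^ β`, with `T → ∞` first and `N → ∞` second, is asymptotic to
`c (log T)⁴ (log N) ^ (2 β + β² / 4)` with `c > 0`. The total order `4 + β` runs through all real numbers above `4`.

More generally the weights `|ζ|⁴ Φ`, where `Φ` is any continuous functional, homogeneous of degree `β`, of the values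
`D (N ^ r) (t + u / log N)`, have limits relative to the mixed moment; and with respect to all these weights the phases
of the primes have the product law with the density `∏ |1 - p ^ (-1/2) e(θ)| ^ (-(4 + β))`.

Proof. The twisted fourth moment of zeta gives the limit in `T`: an integral over the infinite torus against the random
Euler product to the fourth power. There the zeta factor is compared with the Euler product at the distance `c / log N`
from the critical line (the primes above `N` are independent of the partial sum and drop out), and the field limit of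
the random Euler product gives the limit in `N`.
-/

open Complex MeasureTheory Set Filter Topology

namespace Pool.Agent.Results.MP_973905_nt.FourthPowerTimesRealPower

/-- the partial sum of length `M` of the series of zeta at `1/2 + it` -/
noncomputable def D (M : ℕ) (t : ℝ) : ℂ := ∑ n ∈ Finset.Icc 1 M, (n : ℂ) ^ (-(1 / 2 + I * (t : ℂ)))

/-- the integral of `|ζ(1/2+it)|⁴ A(t)` over `0 ≤ t ≤ T` -/
noncomputable def Z4 (A : ℝ → ℝ) (T : ℝ) : ℝ := ∫ t in (0 : ℝ)..T, ‖riemannZeta (1 / 2 + I * (t : ℂ))‖ ^ 4 * A t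

/-- the phases `p ^ (-it)` of the first `P` primes at the height `t` -/
noncomputable def phase (P : ℕ) (t : ℝ) : Fin P → ℂ := fun i => ((Nat.nth Nat.Prime i : ℕ) : ℂ) ^ (-(I * (t : ℂ)))

/-- the density of the phases -/
noncomputable def dens (β : ℝ) (P : ℕ) (θ : Fin P → ℝ) : ℝ :=
  ∏ i : Fin P, ‖1 - ((Nat.nth Nat.Prime i : ℕ) : ℂ) ^ (-(1 / 2) : ℂ) * cexp (2 * Real.pi * I * (θ i : ℂ))‖ ^ (-β)

/-- the mean of `G` for the product law of the phases -/
noncomputable def mean (β : ℝ) (P : ℕ) (G : (Fin P → ℂ) → ℝ) : ℝ :=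
  (∫ θ in Set.univ.pi fun _ : Fin P => Set.Ioc (0 : ℝ) 1, dens β P θ * G (fun i => cexp (2 * Real.pi * I * (θ i : ℂ)))) /
    ∫ θ in Set.univ.pi fun _ : Fin P => Set.Ioc (0 : ℝ) 1, dens β P θ

open Pool.Agent.H470
open Pool.Agent.TH806 (ec)
open Pool.Agent.Y969.SM (Xz)

lemma ec_eq (x : ℝ) : ec x = cexp (2 * Real.pi * I * (x : ℂ)) := by
  unfold Pool.Agent.TH806.ec
  congr 1
  push_cast
  ring

lemma D_WW (M : ℕ) (t : ℝ) : WW (fun _ => 1) M t = D M t := by
  unfold WW D
  refine Finset.sum_congr rfl fun n _ => ?_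
  rw [Complex.ofReal_one, one_mul]

lemma mean_eq (β : ℝ) (P : ℕ) (G : (Fin P → ℂ) → ℝ) :
    (∫ θ in bx P, wth β P θ * G (fun i => ec (θ i))) / (∫ θ in bx P, wth β P θ) = mean β P G := by
  have e1 : wth β P = dens β P := by
    funext θ
    unfold wth dens
    simp_rw [ec_eq]
  unfold mean bx
  rw [e1]
  simp_rw [ec_eq]

lemma sh_eq (N : ℕ) (u : ℝ) : u * xN N = u / Real.log N := by
  unfold xN
  ring

lemma Xz_eq (t : ℝ) : Xz t = ‖riemannZeta (1 / 2 + I * (t : ℂ))‖ := by
  unfold Pool.Agent.Y969.SM.Xz Pool.Agent.H306R2.SM.cl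
  rw [mul_comm]

/-- the weighted integral -/
lemma Z4_eq {T : ℝ} (hT : 1 < T) (A : ℝ → ℝ) : ∫ t, A t ∂n4 T = Z4 A T / (T * Real.log T ^ 4) := by
  have h := n4_int hT (fun t => ((A t : ℝ) : ℂ))
  rw [integral_complex_ofReal] at h
  have e1 : ∫ t in (0:ℝ)..T, ((Xz t ^ 4 : ℝ) : ℂ) * ((A t : ℝ) : ℂ) = ((Z4 A T : ℝ) : ℂ) := by
    unfold Z4
    rw [← intervalIntegral.integral_ofReal]
    refine intervalIntegral.integral_congr fun t _ => ?_
    rw [Xz_eq, Complex.ofReal_mul]
  rw [e1, ← Complex.ofReal_div] at h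
  exact_mod_cast h

/-- the limit in `T` -/
lemma lim_T {m : ℕ} {Φ : (Fin m → ℂ) → ℝ} (hc : Continuous Φ) {P : ℕ} {G : (Fin P → ℂ) → ℝ} (hG : Continuous G)
    (r : Fin m → ℕ) (u : Fin m → ℝ) (N : ℕ) {Q : ℕ} (hQ : ∀ j, N ^ r j ≤ Q) (hP : Nat.nth Nat.Prime P - 1 ≤ Q) :
    Tendsto (fun T : ℝ => Z4 (fun t => Φ (fun j => D (N ^ r j) (t + u j / Real.log N)) * G (phase P t)) T / (T * Real.log T ^ 4)) atTop
      (𝓝 (1 / (2 * Real.pi ^ 2) * nuG 2 Q (fun ω => Φ (fun j => Ts N (r j) (u j) ω) * G (phs P ω)))) := by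
  have h := numW WM_four hc hG r u N hQ hP
  refine h.congr' ?_
  filter_upwards [eventually_gt_atTop 1] with T hT
  rw [Z4_eq hT]
  simp_rw [D_WW, sh_eq]
  rfl

lemma lim_one {β : ℝ} (hβ : 0 < β) (N : ℕ) :
    Tendsto (fun T : ℝ => Z4 (fun t => ‖D N t‖ ^ β) T / (T * Real.log T ^ 4)) atTop (𝓝 (1 / (2 * Real.pi ^ 2) * mix 2 β N)) := by
  have h := lim_T (m := 1) (nrm_cont hβ) (P := 0) (G := fun _ => 1) continuous_const (fun _ => 1) (fun _ => 0) N (Q := max N (Nat.nth Nat.Prime 0 - 1))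
    (fun _ => by simp) (le_max_right _ _)
  have e1 : nuG 2 (max N (Nat.nth Nat.Prime 0 - 1)) (fun ω => ‖Ts N 1 0 ω‖ ^ β * 1) = mix 2 β N := by
    have hS : Continuous (SS N) := (WW_WS (fun _ => 1) N).contF
    have h1 : Measurable fun ω => ‖SS N ω‖ ^ β := hS.norm.measurable.pow_const _
    have h2 : Dep (pr N) fun ω => ‖SS N ω‖ ^ β := by
      intro ω ω' hω
      simp only
      rw [← Ts_one, Ts_dep (by simp) _ hω]
    simp only [Ts_one, mul_one]
    exact nuG_ext 2 (le_max_left _ _) h1 h2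
  rw [e1] at h
  simpa only [pow_one, zero_div, add_zero, mul_one] using h

theorem result (β : ℝ) (hβ : 0 < β) :
    (∃ c : ℝ, 0 < c ∧ ∃ M : ℕ → ℝ,
      (∀ N : ℕ, Tendsto (fun T : ℝ => Z4 (fun t => ‖D N t‖ ^ β) T / (T * Real.log T ^ 4)) atTop (𝓝 (M N))) ∧
      Tendsto (fun N : ℕ => M N / Real.log N ^ (2 * β + β ^ 2 / 4)) atTop (𝓝 c)) ∧
    ∀ (m : ℕ) (r : Fin m → ℕ), (∀ j, 1 ≤ r j) → ∀ (u : Fin m → ℝ) (Φ : (Fin m → ℂ) → ℝ), Continuous Φ →
      (∀ (c : ℂ) (z : Fin m → ℂ), Φ (c • z) = ‖c‖ ^ β * Φ z) →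
      ∃ κ : ℝ, ∀ (P : ℕ) (G : (Fin P → ℂ) → ℝ), Continuous G →
        ∃ R : ℕ → ℝ, (∀ N : ℕ, 2 ≤ N →
          Tendsto (fun T : ℝ => Z4 (fun t => Φ (fun j => D (N ^ r j) (t + u j / Real.log N)) * G (phase P t)) T /
            Z4 (fun t => ‖D N t‖ ^ β) T) atTop (𝓝 (R N))) ∧
          Tendsto R atTop (𝓝 (κ * mean (4 + β) P G)) := by
  constructor
  · obtain ⟨c, hc, h⟩ := mix_log (s := 2) two_pos hβ
    refine ⟨1 / (2 * Real.pi ^ 2) * c, by positivity, fun N => 1 / (2 * Real.pi ^ 2) * mix 2 β N, fun N => lim_one hβ N, ?_⟩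
    refine (h.const_mul (1 / (2 * Real.pi ^ 2))).congr fun N => ?_
    rw [mul_comm β 2]
    ring
  · intro m r hr u Φ hΦ hom
    obtain ⟨q, hq, hrq⟩ : ∃ q : ℕ, 1 ≤ q ∧ ∀ j, r j ≤ q :=
      ⟨1 + ∑ j, r j, by omega, fun j => (Finset.single_le_sum (fun i _ => Nat.zero_le (r i)) (Finset.mem_univ j)).trans (by omega)⟩
    obtain ⟨κ, hκ⟩ := rat_mix (s := 2) two_pos hβ hr hq hrq u hΦ hom
    refine ⟨κ, fun P G hG => ?_⟩
    have h1 := hκ P G hG
    have e2 : 2 * 2 + β = 4 + β := by norm_num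
    rw [mean_eq, e2] at h1
    obtain ⟨Q, hQ⟩ : ∃ Q : ℕ → ℕ, ∀ N, Q N = max (N ^ q) (Nat.nth Nat.Prime P - 1) := ⟨_, fun _ => rfl⟩
    refine ⟨fun N => nuG 2 (Q N) (fun ω => Φ (fun j => Ts N (r j) (u j) ω) * G (phs P ω)) / mix 2 β N, fun N hN => ?_, ?_⟩
    · have hT := lim_T hΦ hG r u N (Q := Q N) (fun j => (Nat.pow_le_pow_right (by omega) (hrq j)).trans (by rw [hQ]; exact le_max_left _ _))
        (by rw [hQ]; exact le_max_right _ _)
      have hD := lim_one hβ N
      have hpos := mix_pos (s := 2) hβ (show 1 ≤ N by omega)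
      have hne : 1 / (2 * Real.pi ^ 2) * mix 2 β N ≠ 0 := by positivity
      have h2 := hT.div hD hne
      have hpi : 1 / (2 * Real.pi ^ 2) ≠ 0 := by positivity
      rw [mul_div_mul_left _ _ hpi] at h2
      refine h2.congr' ?_
      filter_upwards [eventually_gt_atTop 1] with T hT1
      have hl : 0 < Real.log T := Real.log_pos hT1
      have hT0 : 0 < T := by linarith
      exact div_div_div_cancel_right₀ (by positivity) _ _
    · refine h1.congr' ?_
      filter_upwards [eventually_ge_atTop (Nat.nth Nat.Prime P + 1)] with N hN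
      have e3 : Q N = N ^ q := by
        rw [hQ]
        refine max_eq_left ?_
        have := Nat.le_self_pow (show q ≠ 0 by omega) N
        omega
      rw [e3]

end Pool.Agent.Results.MP_973905_nt.FourthPowerTimesRealPower
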