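import Pool.Agent.H471.ZP.Equ

set_option autoImplicit false

/-!
# MP_973905_nt: the conjecture of any real order `2κ < 5` and mixed moments of larger order with generic heights

For `j < k` let `0 < η_j ≤ θ_j ≤ D_j` be real, `m_j ≥ 0` integers, with `η_j < θ_j` or `m_j ≥ 1`, let `y_j ≥ 0` be ARBITRARY
measurable functions with `y_j(t) + t ^ {θ_j} ≍ t ^ {D_j}`, and put

`u_j(t) = y_j(t) + a_j t ^ {θ_j} + b_j t ^ {η_j} / (log t) ^ {m_j}`.

Let `λ > 0` be real, `Δ = ∑_j (D_j - θ_j) + 1 - e`, where `e ≤ 1` and `e ≤ η_j` for all `j`, and `Δ + max (0, (λ - 2) / 3) < 1`.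
For instance `D_j = θ_j = η_j = e = 1`, `m_j = 1` and any real `0 < λ < 5`; or `D_j = 1`, `θ_j = η_j = e = θ`, `m_j = 1`, where the
heights are at a distance `O(t ^ θ)` from `t`, with `1 - θ < (1 - max (0, (λ - 2) / 3)) / (k + 1)`.

(1) For almost all real `a_j > 0`, `b_j` and all real `β`, `C`:
    `∫_0^T |ζ(1/2 + it)| ^ λ dt ~ C T (log T) ^ β` if and only if
    `∫_2^T |ζ(1/2 + it)| ^ λ ∏_j |ζ(1/2 + i u_j(t))| ² dt ~ C (∏_j D_j) T (log T) ^ (β + k)`
    (in the sense of limits, so that `C = 0` is allowed). With `λ = 2κ`, `β = κ²` and `C = c_κ`: the conjecture of order `κ < 5/2`.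

(2) For every measurable complex function `w` with `|w(t)| ≤ |ζ(1/2 + it)| ^ λ`, and almost all `a_j > 0`, `b_j`:
    `∫_{T_0}^T w(t) (∏_j |ζ(1/2 + i u_j(t))| ² - ∏_j (log(u_j(t) / 2π) + 2γ)) dt = O(T ^ (1 - δ))`, with an explicit exponent, and
    `∫_2^T w ∏_j |ζ(1/2 + i u_j)| ² dt = (∏_j D_j) ∫_2^T w (log t) ^ k dt + o(∫_2^T |ζ(1/2 + it)| ^ λ (log t) ^ k dt)`,
    without any assumption on the moments.

Proof: the theorem on generic heights with arbitrary weights of given mean square (see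
`MP_07318d_nt.SquareRootGenericHeights`, `MP_39df77_nt.SixthMomentGenericHeights`), applied to weights `|w| ≤ |ζ| ^ λ`, whose
mean square is `O(T ^ (1 + max (0, (λ - 2) / 3) + ε))` by the fourth moment and Weyl's bound; the error term is smaller
than every moment by the lower bound `T ^ (1 - ε)` for the moments of all real orders; (1) by partial integration, in both
directions, with comparison of the integrals up to `T / (log T) ^ M`.
-/

namespace Pool.Agent.Results.MP_973905_nt.RealOrdersGenericHeights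

open MeasureTheory Set Filter Topology

/-- `|ζ(1/2 + iu)|` -/
noncomputable def Z (u : ℝ) : ℝ := ‖riemannZeta (1 / 2 + Complex.I * u)‖

/-- the heights `u_j(t) = y_j(t) + a_j t ^ {θ_j} + b_j t ^ {η_j} / (log t) ^ {m_j}`, `c_j = (a_j, b_j)` -/
noncomputable def height {k : ℕ} (θ η : Fin k → ℝ) (m : Fin k → ℕ) (y : Fin k → ℝ → ℝ) (c : Fin k → ℝ × ℝ)
    (j : Fin k) (t : ℝ) : ℝ :=
  y j t + (c j).1 * t ^ θ j + (c j).2 * (t ^ η j / Real.log t ^ m j)

/-- `log(u / 2π) + 2γ` -/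
noncomputable def main (u : ℝ) : ℝ := Real.log (u / (2 * Real.pi)) + 2 * Real.eulerMascheroniConstant

/-- **real orders, generic heights** -/
theorem result {k : ℕ} (θ η D : Fin k → ℝ) (m : Fin k → ℕ) (hη : ∀ j, 0 < η j) (hηθ : ∀ j, η j ≤ θ j)
    (hm : ∀ j, η j < θ j ∨ 1 ≤ m j) (hD : ∀ j, θ j ≤ D j)
    (y : Fin k → ℝ → ℝ) (hym : ∀ j, Measurable (y j)) (Y : ℝ)
    (hy : ∀ j t, 2 ≤ t → 0 ≤ y j t ∧ y j t ≤ Y * t ^ D j) (c0 : ℝ) (hc0 : 0 < c0)
    (hlow : ∀ j t, 2 ≤ t → c0 * t ^ D j ≤ y j t + t ^ θ j)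
    (e : ℝ) (he1 : e ≤ 1) (he : ∀ j, e ≤ η j) (lam : ℝ) (hl : 0 < lam)
    (hδ : ∑ j, (D j - θ j) + (1 - e) + max 0 ((lam - 2) / 3) < 1) :
    -- (1) the conjecture of order `lam` and the mixed moments
    (∀ᵐ c : Fin k → ℝ × ℝ, (∀ j, 0 < (c j).1) → ∀ β C : ℝ,
      (Tendsto (fun T : ℝ => (∫ t in (0:ℝ)..T, Z t ^ lam) / (T * Real.log T ^ β)) atTop (𝓝 C) ↔
        Tendsto (fun T : ℝ => (∫ t in (2:ℝ)..T, Z t ^ lam * ∏ j, Z (height θ η m y c j t) ^ 2) /
          (T * Real.log T ^ (β + k))) atTop (𝓝 (C * ∏ j, D j)))) ∧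
    -- (2) arbitrary weights
    (∀ w : ℝ → ℂ, Measurable w → (∀ t, 2 ≤ t → ‖w t‖ ≤ Z t ^ lam) →
      ∀ᵐ c : Fin k → ℝ × ℝ, (∀ j, 0 < (c j).1) →
        (∃ T0 : ℝ, 2 ≤ T0 ∧
          (∀ T : ℝ, T0 ≤ T → IntervalIntegrable (fun t => w t *
            (∏ j, ((Z (height θ η m y c j t) ^ 2 : ℝ) : ℂ) - ∏ j, (main (height θ η m y c j t) : ℂ))) volume T0 T) ∧
          ∀ ε : ℝ, 0 < ε → ∃ K : ℝ, ∀ T : ℝ, T0 ≤ T →
            ‖∫ t in T0..T, w t *
              (∏ j, ((Z (height θ η m y c j t) ^ 2 : ℝ) : ℂ) - ∏ j, (main (height θ η m y c j t) : ℂ))‖ ≤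
              K * T ^ (1 + (∑ j, (D j - θ j) + (1 - e) + max 0 ((lam - 2) / 3) - 1) / 2 + ε)) ∧
        (∀ T : ℝ, 2 ≤ T →
          IntervalIntegrable (fun t => w t * ((∏ j, Z (height θ η m y c j t) ^ 2 : ℝ) : ℂ)) volume 2 T) ∧
        Tendsto (fun T : ℝ => ((∫ t in (2:ℝ)..T, w t * ((∏ j, Z (height θ η m y c j t) ^ 2 : ℝ) : ℂ)) -
          ((∏ j, D j : ℝ) : ℂ) * ∫ t in (2:ℝ)..T, w t * ((Real.log t ^ k : ℝ) : ℂ)) /
            ((∫ t in (2:ℝ)..T, Z t ^ lam * Real.log t ^ k : ℝ) : ℂ)) atTop (𝓝 0)) := by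
  have ez : ∀ t : ℝ, Pool.Agent.Helper156_SP.az t = Z t := Pool.Agent.H471.ZP.az_eq
  constructor
  · filter_upwards [Pool.Agent.H471.ZP.real_iff θ η D m lam hl hη hηθ hm hD y hym Y hy c0 hc0 hlow e he1 he hδ]
      with c hc hj
    intro β C
    have h1 := hc hj β C
    simp only [ez] at h1
    have h2 := Pool.Agent.H471.ZP.lim_iff β C (∫ t in (0:ℝ)..2, Z t ^ lam) (fun T => ∫ t in (0:ℝ)..T, Z t ^ lam)
      (fun T => ∫ t in (2:ℝ)..T, Z t ^ lam) (fun _ => 0) (by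
        filter_upwards with T
        have hi : ∀ a b : ℝ, IntervalIntegrable (fun t => Z t ^ lam) volume a b := by
          intro a b
          have := Pool.Agent.Helper156_SP.azp_int hl a b
          simpa only [ez] using this
        rw [add_zero, intervalIntegral.integral_add_adjacent_intervals (hi _ _) (hi _ _)]) (by
        simp only [zero_div]
        exact tendsto_const_nhds)
    rw [h2]
    exact h1
  · intro w hw hwl
    have h := Pool.Agent.H471.ZP.real_main θ η D m lam hl hη hηθ hm hD y hym Y hy c0 hc0 hlow e he1 he hδ w hw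
      (by simpa only [ez] using hwl)
    filter_upwards [h] with c hc hj
    obtain ⟨⟨T0, hT0, h1, h2⟩, h3, h4⟩ := hc hj
    simp only [Pool.Agent.H471.ZP.NN, ez] at h4
    refine ⟨⟨T0, hT0, h1, fun ε hε => ?_⟩, h3, h4⟩
    obtain ⟨K, hK⟩ := h2 ε hε
    refine ⟨K, fun T hT => ?_⟩
    have h5 := hK T hT
    have e1 : (∑ j, (D j - θ j) + 1 - e + (1 + max 0 ((lam - 2) / 3))) / 2 + ε =
        1 + (∑ j, (D j - θ j) + (1 - e) + max 0 ((lam - 2) / 3) - 1) / 2 + ε := by ring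
    rw [e1] at h5
    exact h5

end Pool.Agent.Results.MP_973905_nt.RealOrdersGenericHeights
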