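import Pool.Agent.H362.SV.Neg

set_option autoImplicit false

/-! # Small values of zeta on the critical line, and the negative moments up to the pole

No hypothesis. The conjecture of Keating and Snaith for `∫ |ζ(1/2 + i t)| ^ s dt` covers all real `s > -1`: the order is
`T (log T) ^ (s² / 4)`, with a constant that behaves like `1 / (1 + s)` as `s → -1`; for `s ≤ -1` the integral diverges at the zeros. We
prove the lower bound of this order, up to `(log T) ^ ε`, for all `-1 < s ≤ 0`, uniformly in `s`, with the factor `1 / (1 + s)`. It rests on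
a lower bound for the measure of the set where `|ζ(1/2 + i t)| ≤ δ`, for all `0 < δ ≤ (log T) ^ (-C)`: it is at least
`δ T (log T) ^ (1/4 - ε)`, again of the conjectured order (the density of the values of `|ζ|` at `0`). -/

namespace Pool.Agent.Results.MP_973905_nt.SmallValuesNegativeMoments

open Filter MeasureTheory

/-- `|ζ(1/2 + i t)|` -/
noncomputable def absZeta (t : ℝ) : ℝ := ‖riemannZeta (1 / 2 + t * Complex.I)‖

/-- the measure of the set of `t ∈ [T, 2T]` with `|ζ(1/2 + i t)| ≤ δ` -/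
noncomputable def smallMeasure (T δ : ℝ) : ℝ := volume.real {t : ℝ | t ∈ Set.Icc T (2 * T) ∧ absZeta t ≤ δ}

/-- `∫_T^2T |ζ(1/2 + i t)| ^ s dt`, with values in `[0, ∞]` -/
noncomputable def moment (T s : ℝ) : ENNReal := ∫⁻ t in Set.Icc T (2 * T), ENNReal.ofReal (absZeta t ^ s)

/-- **Theorem.** -/
theorem result :
    (∃ C : ℝ, 0 < C ∧ ∀ ε : ℝ, 0 < ε → ∃ T₀ : ℝ, ∀ T : ℝ, T₀ ≤ T → ∀ δ : ℝ, 0 < δ → δ ≤ Real.log T ^ (-C) →
      δ * (T * Real.log T ^ (1 / 4 - ε)) ≤ smallMeasure T δ) ∧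
    (∀ ε : ℝ, 0 < ε → ∃ T₀ : ℝ, ∀ T : ℝ, T₀ ≤ T → ∀ s : ℝ, -1 < s → s ≤ 0 →
      ENNReal.ofReal (T * Real.log T ^ (s ^ 2 / 4 - ε) / (1 + s)) ≤ moment T s) := by
  refine ⟨?_, fun ε hε => eventually_atTop.1 (Pool.Agent.H362.SV.moment hε)⟩
  obtain ⟨C, hC, h⟩ := Pool.Agent.H362.SV.small
  exact ⟨C, hC, fun ε hε => eventually_atTop.1 (h ε hε)⟩

end Pool.Agent.Results.MP_973905_nt.SmallValuesNegativeMoments
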