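import Pool.Agent.H469.F4.SP7

set_option autoImplicit false

/-!
# MP_973905_nt: the splitting conjecture, to order of magnitude, unconditionally for all real `0 ≤ k ≤ 2`

`ζ = P_X · Z_X` on the critical line, with the short Euler product `P_X(s) = ∏_{p ≤ X} (1 - p^{-s})⁻¹`.
-/

namespace Pool.Agent.Results.MP_973905_nt.SplittingToOrder

open Filter Topology MeasureTheory Complex

noncomputable section

/-- the short Euler product `P_X(s) = ∏_{p ≤ X} (1 - p^{-s})⁻¹` -/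
def eulerP (X : ℕ) (s : ℂ) : ℂ := ∏ p ∈ (Finset.Icc 1 X).filter Nat.Prime, (1 - (p : ℂ) ^ (-s))⁻¹

/-- the mean value of `|ζ(1/2+it)|^{2k} |P_X(1/2+it)|^{2z}` over `T ≤ t ≤ 2T` -/
def jointMoment (k z : ℝ) (X : ℕ) (T : ℝ) : ℝ :=
  (1 / T) * ∫ t in T..(2 * T), ‖riemannZeta (1 / 2 + t * I)‖ ^ (2 * k) * ‖eulerP X (1 / 2 + t * I)‖ ^ (2 * z)

/-- the mean value of `|ζ(1/2+it)|^{2k}` -/
def zetaMoment (k T : ℝ) : ℝ := (1 / T) * ∫ t in T..(2 * T), ‖riemannZeta (1 / 2 + t * I)‖ ^ (2 * k)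

/-- the mean value of `|P_X(1/2+it)|^{2k}` -/
def eulerMoment (k : ℝ) (X : ℕ) (T : ℝ) : ℝ := (1 / T) * ∫ t in T..(2 * T), ‖eulerP X (1 / 2 + t * I)‖ ^ (2 * k)

/-- the mean value of `|Z_X(1/2+it)|^{2k}`, where `Z_X = ζ / P_X` -/
def hadamardMoment (k : ℝ) (X : ℕ) (T : ℝ) : ℝ :=
  (1 / T) * ∫ t in T..(2 * T), ‖riemannZeta (1 / 2 + t * I) / eulerP X (1 / 2 + t * I)‖ ^ (2 * k)

/-- **Joint moments of `ζ` and `P_X`, moments of `Z_X` and the splitting, all with the right order.**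
Lower bounds for all real `k ≥ 0`; upper bounds and the splitting for all real `0 ≤ k ≤ 2`. -/
theorem result (A : ℝ) : ∃ c₀ c C : ℝ, 0 < c₀ ∧ 0 < c ∧ 0 < C ∧ ∀ᶠ T : ℝ in atTop, ∀ X : ℕ, 2 ≤ X →
    (X : ℝ) ≤ c₀ * (Real.log T / Real.log (Real.log T)) ^ 2 →
      (∀ k : ℝ, 0 ≤ k → k ≤ A →
        (∀ z : ℝ, |z| ≤ A → c * (Real.log T ^ (k ^ 2) * Real.log X ^ (2 * k * z + z ^ 2)) ≤ jointMoment k z X T) ∧
        c * (Real.log T / Real.log X) ^ (k ^ 2) ≤ hadamardMoment k X T) ∧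
      (∀ k : ℝ, 0 ≤ k → k ≤ 2 →
        (∀ z : ℝ, |z| ≤ A → jointMoment k z X T ≤ C * (Real.log T ^ (k ^ 2) * Real.log X ^ (2 * k * z + z ^ 2))) ∧
        hadamardMoment k X T ≤ C * (Real.log T / Real.log X) ^ (k ^ 2) ∧
        c * (eulerMoment k X T * hadamardMoment k X T) ≤ zetaMoment k T ∧
        zetaMoment k T ≤ C * (eulerMoment k X T * hadamardMoment k X T)) := by
  obtain ⟨c₀, c, C, hc0, hc, hC, h⟩ := Pool.Agent.H469.F4.joint_eu (A := max 2 A) (le_max_left _ _)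
  obtain ⟨c₁, cl, hc1, hcl, hlow⟩ := Pool.Agent.H469.F4.joint_low (A := max 1 A) (le_max_left _ _)
  have hcm : ∃ d D : ℝ, 0 < d ∧ d ≤ cl ∧ d * (C * C) ≤ c ∧ 0 < D ∧ C ≤ D ∧ C ≤ D * (c * c) := by
    refine ⟨min cl (c / (C * C)), max C (C / (c * c)), by positivity, min_le_left _ _, ?_,
      lt_of_lt_of_le hC (le_max_left _ _), le_max_left _ _, ?_⟩
    · have h1 : min cl (c / (C * C)) ≤ c / (C * C) := min_le_right _ _
      rwa [le_div_iff₀ (by positivity)] at h1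
    · have h1 : C / (c * c) ≤ max C (C / (c * c)) := le_max_right _ _
      rwa [div_le_iff₀ (by positivity)] at h1
  obtain ⟨d, D, hd, hdc, hdC, hD, hCD, hDc⟩ := hcm
  refine ⟨min c₀ c₁, d, D, by positivity, hd, hD, ?_⟩
  filter_upwards [h, hlow, eventually_ge_atTop (16 : ℝ), Real.tendsto_log_atTop.eventually_gt_atTop 0] with T g gl hT16 hL
  intro X hX hXT'
  have hT0 : 0 < T := by linarith
  have hX1 : (1 : ℝ) < X := by exact_mod_cast (by omega : 1 < X)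
  have hl : 0 < Real.log X := Real.log_pos hX1
  have hsq : 0 ≤ (Real.log T / Real.log (Real.log T)) ^ 2 := sq_nonneg _
  have hXT : (X : ℝ) ≤ c₀ * (Real.log T / Real.log (Real.log T)) ^ 2 :=
    hXT'.trans (mul_le_mul_of_nonneg_right (min_le_left _ _) hsq)
  have hXT2 : (X : ℝ) ≤ c₁ * (Real.log T / Real.log (Real.log T)) ^ 2 :=
    hXT'.trans (mul_le_mul_of_nonneg_right (min_le_right _ _) hsq)
  -- the moments of the quotient
  have e1 : ∀ k : ℝ, Pool.Agent.H469.F4.jm k (-k) X T = hadamardMoment k X T := by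
    intro k
    unfold Pool.Agent.H469.F4.jm hadamardMoment
    congr 1
    apply intervalIntegral.integral_congr
    intro t _
    show ‖riemannZeta (1 / 2 + t * I)‖ ^ (2 * k) * ‖Pool.Agent.H469.F4.euX X (1 / 2 + t * I)‖ ^ (2 * -k) =
      ‖riemannZeta (1 / 2 + t * I) / eulerP X (1 / 2 + t * I)‖ ^ (2 * k)
    rw [norm_div, Real.div_rpow (norm_nonneg _) (norm_nonneg _), mul_neg, Real.rpow_neg (norm_nonneg _)]
    rfl
  have e2 : ∀ k : ℝ, Real.log T ^ (k ^ 2) * Real.log X ^ (2 * k * -k + (-k) ^ 2) = (Real.log T / Real.log X) ^ (k ^ 2) := by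
    intro k
    rw [Real.div_rpow hL.le hl.le, show 2 * k * -k + (-k) ^ 2 = -(k ^ 2) by ring, Real.rpow_neg hl.le]
    rfl
  refine ⟨fun k hk0 hkA => ⟨fun z hz => ?_, ?_⟩, fun k hk0 hk2 => ?_⟩
  · have h1 := gl X hX hXT2 k hk0 (hkA.trans (le_max_right _ _)) z (hz.trans (le_max_right _ _))
    have h3 : 0 ≤ Real.log T ^ (k ^ 2) * Real.log X ^ (2 * k * z + z ^ 2) := by positivity
    exact (mul_le_mul_of_nonneg_right hdc h3).trans h1
  · have h1 := gl X hX hXT2 k hk0 (hkA.trans (le_max_right _ _)) (-k) (by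
      rw [abs_neg, abs_of_nonneg hk0]
      exact hkA.trans (le_max_right _ _))
    rw [e1, e2] at h1
    have h3 : 0 ≤ (Real.log T / Real.log X) ^ (k ^ 2) := by positivity
    exact (mul_le_mul_of_nonneg_right hdc h3).trans h1
  have hjm : ∀ z, Pool.Agent.H469.F4.jm k z X T = jointMoment k z X T := fun _ => rfl
  have hk2' : |k| ≤ max 2 A := by rw [abs_of_nonneg hk0]; exact hk2.trans (le_max_left _ _)
  obtain ⟨a1, a2⟩ := g X hX hXT k hk0 hk2 (-k) (by rwa [abs_neg])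
  rw [e1, e2] at a1 a2
  -- the moments of the Euler product
  obtain ⟨b1, b2⟩ := g X hX hXT 0 le_rfl (by norm_num) k hk2'
  have e3 : Pool.Agent.H469.F4.jm 0 k X T = eulerMoment k X T := by
    unfold Pool.Agent.H469.F4.jm eulerMoment
    congr 1
    apply intervalIntegral.integral_congr
    intro t _
    show ‖riemannZeta (1 / 2 + t * I)‖ ^ (2 * (0 : ℝ)) * ‖Pool.Agent.H469.F4.euX X (1 / 2 + t * I)‖ ^ (2 * k) =
      ‖eulerP X (1 / 2 + t * I)‖ ^ (2 * k)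
    rw [mul_zero, Real.rpow_zero, one_mul]
    rfl
  have e4 : Real.log T ^ ((0 : ℝ) ^ 2) * Real.log X ^ (2 * 0 * k + k ^ 2) = Real.log X ^ (k ^ 2) := by
    rw [show (0 : ℝ) ^ 2 = 0 by norm_num, Real.rpow_zero, one_mul]
    congr 1
    ring
  rw [e3, e4] at b1 b2
  -- the moments of the zeta function
  obtain ⟨f1, f2⟩ := g X hX hXT k hk0 hk2 0 (by rw [abs_zero]; positivity)
  have e5 : Pool.Agent.H469.F4.jm k 0 X T = zetaMoment k T := by
    unfold Pool.Agent.H469.F4.jm zetaMoment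
    congr 1
    apply intervalIntegral.integral_congr
    intro t _
    show ‖riemannZeta (1 / 2 + t * I)‖ ^ (2 * k) * ‖Pool.Agent.H469.F4.euX X (1 / 2 + t * I)‖ ^ (2 * (0 : ℝ)) =
      ‖riemannZeta (1 / 2 + t * I)‖ ^ (2 * k)
    rw [mul_zero, Real.rpow_zero, mul_one]
  have e6 : Real.log T ^ (k ^ 2) * Real.log X ^ (2 * k * 0 + (0 : ℝ) ^ 2) = Real.log T ^ (k ^ 2) := by
    rw [show 2 * k * 0 + (0 : ℝ) ^ 2 = 0 by ring, Real.rpow_zero, mul_one]
  rw [e5, e6] at f1 f2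
  obtain ⟨H, hH⟩ : ∃ H : ℝ, H = hadamardMoment k X T := ⟨_, rfl⟩
  obtain ⟨E, hE⟩ : ∃ E : ℝ, E = eulerMoment k X T := ⟨_, rfl⟩
  obtain ⟨Z, hZ⟩ : ∃ Z : ℝ, Z = zetaMoment k T := ⟨_, rfl⟩
  rw [← hH] at a1 a2 ⊢
  rw [← hE] at b1 b2 ⊢
  rw [← hZ] at f1 f2 ⊢
  obtain ⟨x, hx⟩ : ∃ x : ℝ, x = Real.log X ^ (k ^ 2) := ⟨_, rfl⟩
  obtain ⟨y, hy⟩ : ∃ y : ℝ, y = (Real.log T / Real.log X) ^ (k ^ 2) := ⟨_, rfl⟩
  have hxy : Real.log T ^ (k ^ 2) = x * y := by
    rw [hx, hy, ← Real.mul_rpow hl.le (by positivity)]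
    congr 1
    field_simp
  have hx0 : 0 < x := by rw [hx]; positivity
  have hy0 : 0 < y := by rw [hy]; positivity
  rw [← hx] at b1 b2
  rw [← hy] at a1 a2 ⊢
  rw [hxy] at f1 f2
  have hE0 : 0 ≤ E := le_trans (by positivity) b1
  have hH0 : 0 ≤ H := le_trans (by positivity) a1
  refine ⟨fun z hz => ?_, ?_, ?_, ?_⟩
  · obtain ⟨h1, h2⟩ := g X hX hXT k hk0 hk2 z (hz.trans (le_max_right _ _))
    rw [hjm] at h1 h2
    have h3 : 0 ≤ Real.log T ^ (k ^ 2) * Real.log X ^ (2 * k * z + z ^ 2) := by positivity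
    exact h2.trans (mul_le_mul_of_nonneg_right hCD h3)
  · exact a2.trans (mul_le_mul_of_nonneg_right hCD hy0.le)
  · calc d * (E * H) ≤ d * ((C * x) * (C * y)) := by
          apply mul_le_mul_of_nonneg_left _ hd.le
          exact mul_le_mul b2 a2 hH0 (by positivity)
      _ = d * (C * C) * (x * y) := by ring
      _ ≤ c * (x * y) := mul_le_mul_of_nonneg_right hdC (by positivity)
      _ ≤ Z := f1
  · calc Z ≤ C * (x * y) := f2
      _ ≤ D * (c * c) * (x * y) := mul_le_mul_of_nonneg_right hDc (by positivity)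
      _ = D * ((c * x) * (c * y)) := by ring
      _ ≤ D * (E * H) := by
          apply mul_le_mul_of_nonneg_left _ hD.le
          exact mul_le_mul b1 a1 (by positivity) hE0

end

end Pool.Agent.Results.MP_973905_nt.SplittingToOrder
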